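import Mathlib

/-!
# Isometric immersions of conformal metrics: second derivatives and the Gauss equation
-/

set_option autoImplicit false

namespace Pool.Agent.SadSym

open Complex

variable {E : Type*} [NormedAddCommGroup E] [InnerProductSpace ℝ E]

/-- second derivative of `f` at `z` in the directions `v` and `w`. -/
noncomputable def sd (f : ℂ → E) (z v w : ℂ) : E := fderiv ℝ (fun ζ => fderiv ℝ f ζ w) z v

/-- `f` is an isometric map for the metric `exp (2 u) |dz|^2`. -/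
def Iso (u : ℂ → ℝ) (f : ℂ → E) : Prop :=
  ∀ z v w : ℂ, inner ℝ (fderiv ℝ f z v) (fderiv ℝ f z w) = Real.exp (2 * u z) * inner ℝ v w

/-- the flat Laplacian -/
noncomputable def lap (u : ℂ → ℝ) (z : ℂ) : ℝ :=
  fderiv ℝ (fun w => fderiv ℝ u w 1) z 1 + fderiv ℝ (fun w => fderiv ℝ u w I) z I

section general

variable {F : Type*} [NormedAddCommGroup F] [NormedSpace ℝ F]

abbrev Sm (f : ℂ → F) : Prop := ContDiff ℝ ((⊤ : ℕ∞) : WithTop ℕ∞) f

theorem sm_fd {f : ℂ → F} (hf : Sm f) (w : ℂ) : Sm (fun ζ => fderiv ℝ f ζ w) :=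
  (hf.fderiv_right (m := ((⊤ : ℕ∞) : WithTop ℕ∞)) le_rfl).clm_apply contDiff_const

theorem sm_diff {f : ℂ → F} (hf : Sm f) : Differentiable ℝ f := hf.differentiable (by simp)

theorem sd_symm' {f : ℂ → F} (hf : Sm f) (z v w : ℂ) :
    fderiv ℝ (fun ζ => fderiv ℝ f ζ w) z v = fderiv ℝ (fun ζ => fderiv ℝ f ζ v) z w := by
  have h1 : ∀ a b : ℂ, fderiv ℝ (fun ζ => fderiv ℝ f ζ a) z b = fderiv ℝ (fderiv ℝ f) z b a := by
    intro a b
    have hd : DifferentiableAt ℝ (fderiv ℝ f) z :=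
      ((hf.fderiv_right (m := ((⊤ : ℕ∞) : WithTop ℕ∞)) le_rfl).differentiable (by simp)) z
    rw [fderiv_clm_apply hd (differentiableAt_const a)]
    simp
  rw [h1, h1]
  have h2 : IsSymmSndFDerivAt ℝ f z := hf.contDiffAt.isSymmSndFDerivAt (by
    rw [minSmoothness_of_isRCLikeNormedField]
    exact WithTop.coe_le_coe.mpr (le_top : (2 : ℕ∞) ≤ ⊤))
  exact h2 v w

end general

theorem sd_symm {f : ℂ → E} (hf : Sm f) (z v w : ℂ) : sd f z v w = sd f z w v :=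
  sd_symm' hf z v w

/-- product rule -/
theorem inner_deriv {X Y : ℂ → E} {φ : ℂ → ℝ} (hX : Sm X) (hY : Sm Y)
    (h : ∀ z, inner ℝ (X z) (Y z) = φ z) (z v : ℂ) :
    inner ℝ (fderiv ℝ X z v) (Y z) + inner ℝ (X z) (fderiv ℝ Y z v) = fderiv ℝ φ z v := by
  have e : φ = fun z => inner ℝ (X z) (Y z) := funext fun z => (h z).symm
  rw [e, fderiv_inner_apply ℝ (sm_diff hX z) (sm_diff hY z)]
  ring

theorem exp_deriv {u : ℂ → ℝ} (hu : Sm u) (z v : ℂ) :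
    fderiv ℝ (fun ζ => Real.exp (2 * u ζ)) z v = 2 * fderiv ℝ u z v * Real.exp (2 * u z) := by
  have h1 : HasFDerivAt u (fderiv ℝ u z) z := (sm_diff hu z).hasFDerivAt
  have h2 : HasFDerivAt (fun ζ => Real.exp (2 * u ζ)) _ z := (h1.const_mul 2).exp
  rw [h2.fderiv]
  simp only [smul_apply, smul_eq_mul]
  ring

section gauss

variable {u : ℂ → ℝ} {f : ℂ → E}

theorem iso_xx (hi : Iso u f) (z : ℂ) :
    inner ℝ (fderiv ℝ f z 1) (fderiv ℝ f z 1) = Real.exp (2 * u z) := by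
  rw [hi]; simp

theorem iso_yy (hi : Iso u f) (z : ℂ) :
    inner ℝ (fderiv ℝ f z I) (fderiv ℝ f z I) = Real.exp (2 * u z) := by
  rw [hi]; simp

theorem iso_xy (hi : Iso u f) (z : ℂ) :
    inner ℝ (fderiv ℝ f z 1) (fderiv ℝ f z I) = 0 := by
  rw [hi, Complex.inner]; simp

theorem d_xx (hu : Sm u) (hf : Sm f) (hi : Iso u f) (z v : ℂ) :
    inner ℝ (sd f z v 1) (fderiv ℝ f z 1) = fderiv ℝ u z v * Real.exp (2 * u z) := by
  have h := inner_deriv (sm_fd hf 1) (sm_fd hf 1) (iso_xx hi) z v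
  rw [exp_deriv hu, real_inner_comm] at h
  unfold sd
  rw [real_inner_comm]
  linarith

theorem d_yy (hu : Sm u) (hf : Sm f) (hi : Iso u f) (z v : ℂ) :
    inner ℝ (sd f z v I) (fderiv ℝ f z I) = fderiv ℝ u z v * Real.exp (2 * u z) := by
  have h := inner_deriv (sm_fd hf I) (sm_fd hf I) (iso_yy hi) z v
  rw [exp_deriv hu, real_inner_comm] at h
  unfold sd
  rw [real_inner_comm]
  linarith

theorem d_xy (hf : Sm f) (hi : Iso u f) (z v : ℂ) :
    inner ℝ (sd f z v 1) (fderiv ℝ f z I) + inner ℝ (sd f z v I) (fderiv ℝ f z 1) = 0 := by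
  have h := inner_deriv (sm_fd hf 1) (sm_fd hf I) (iso_xy hi) z v
  rw [fderiv_fun_const] at h
  unfold sd
  rw [real_inner_comm (fderiv ℝ (fun ζ => fderiv ℝ f ζ I) z v) (fderiv ℝ f z 1)] at h
  simpa using h

/-- `f_yy . f_x` -/
theorem yy_x (hu : Sm u) (hf : Sm f) (hi : Iso u f) (z : ℂ) :
    inner ℝ (sd f z I I) (fderiv ℝ f z 1) = -(fderiv ℝ u z 1 * Real.exp (2 * u z)) := by
  have h1 := d_xy hf hi z I
  have h2 := d_yy hu hf hi z 1
  rw [sd_symm hf z 1 I] at h2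
  linarith

/-- `f_xx . f_y` -/
theorem xx_y (hu : Sm u) (hf : Sm f) (hi : Iso u f) (z : ℂ) :
    inner ℝ (sd f z 1 1) (fderiv ℝ f z I) = -(fderiv ℝ u z I * Real.exp (2 * u z)) := by
  have h1 := d_xy hf hi z 1
  have h2 := d_xx hu hf hi z I
  rw [sd_symm hf z I 1] at h2
  linarith

theorem mul_exp_deriv {a : ℂ → ℝ} (ha : Sm a) (hu : Sm u) (z v : ℂ) :
    fderiv ℝ (fun ζ => a ζ * Real.exp (2 * u ζ)) z v =
      (fderiv ℝ a z v + 2 * a z * fderiv ℝ u z v) * Real.exp (2 * u z) := by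
  have h1 : HasFDerivAt a (fderiv ℝ a z) z := (sm_diff ha z).hasFDerivAt
  have h0 : DifferentiableAt ℝ (fun ζ => Real.exp (2 * u ζ)) z :=
    ((sm_diff hu z).const_mul 2).exp
  have h2 : HasFDerivAt (fun ζ => a ζ * Real.exp (2 * u ζ)) _ z := h1.mul h0.hasFDerivAt
  rw [h2.fderiv]
  simp only [add_apply, smul_apply, smul_eq_mul]
  rw [exp_deriv hu]
  ring

/-- Gauss equation in isothermal coordinates -/
theorem gauss (hu : Sm u) (hf : Sm f) (hi : Iso u f) (z : ℂ) :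
    inner ℝ (sd f z 1 I) (sd f z 1 I) - inner ℝ (sd f z 1 1) (sd f z I I) =
      (lap u z + 2 * (fderiv ℝ u z 1 ^ 2 + fderiv ℝ u z I ^ 2)) * Real.exp (2 * u z) := by
  -- `⟨B_x, A⟩ = u_y e^{2u}`
  have sBx : Sm (fun ζ => sd f ζ 1 I) := sm_fd (sm_fd hf I) 1
  have sBy : Sm (fun ζ => sd f ζ I I) := sm_fd (sm_fd hf I) I
  have e1 : ∀ ζ, inner ℝ (sd f ζ 1 I) (fderiv ℝ f ζ 1) =
      fderiv ℝ u ζ I * Real.exp (2 * u ζ) := by
    intro ζ
    rw [sd_symm hf ζ 1 I]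
    exact d_xx hu hf hi ζ I
  have e2 : ∀ ζ, inner ℝ (sd f ζ I I) (fderiv ℝ f ζ 1) =
      -(fderiv ℝ u ζ 1 * Real.exp (2 * u ζ)) := fun ζ => yy_x hu hf hi ζ
  have h1 := inner_deriv sBx (sm_fd hf 1) e1 z I
  have h2 := inner_deriv sBy (sm_fd hf 1) e2 z 1
  rw [mul_exp_deriv (sm_fd hu I) hu] at h1
  rw [fderiv_fun_neg, neg_apply, mul_exp_deriv (sm_fd hu 1) hu] at h2
  have h3 : fderiv ℝ (fun ζ => sd f ζ 1 I) z I = fderiv ℝ (fun ζ => sd f ζ I I) z 1 :=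
    sd_symm' (sm_fd hf I) z I 1
  have h4 : fderiv ℝ (fun ζ => fderiv ℝ f ζ 1) z I = sd f z 1 I := sd_symm' hf z I 1
  rw [h3, h4] at h1
  have h5 : fderiv ℝ (fun ζ => fderiv ℝ f ζ 1) z 1 = sd f z 1 1 := rfl
  rw [h5, real_inner_comm] at h2
  rw [real_inner_comm (sd f z 1 1) (sd f z I I)] at h2
  unfold lap
  have h6 := real_inner_comm (fderiv ℝ f z 1) (fderiv ℝ (fun ζ => sd f ζ I I) z 1)
  nlinarith [h1, h2, h6]

end gauss

end Pool.Agent.SadSym
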