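import Pool.Agent.SadSym.Polar

/-!
# The comparison inequality
-/

set_option autoImplicit false

namespace Pool.Agent.SadSym

open Complex

variable {E : Type*} [NormedAddCommGroup E] [InnerProductSpace ℝ E]
variable {f : ℂ → E} {u : ℂ → ℝ}

theorem ofReal_hasDerivAt (x : ℝ) : HasDerivAt (fun r : ℝ => (r : ℂ)) 1 x := by
  have h := Complex.ofRealCLM.hasDerivAt (x := x)
  have e : Complex.ofRealCLM 1 = 1 := by simp
  rw [e] at h
  exact h

theorem along {F : Type*} [NormedAddCommGroup F] [NormedSpace ℝ F] {g : ℂ → F} (hg : Sm g) (x : ℝ) :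
    HasDerivAt (fun r : ℝ => g (r : ℂ)) (fderiv ℝ g (x : ℂ) 1) x :=
  HasFDerivAt.comp_hasDerivAt x ((sm_diff hg _).hasFDerivAt) (ofReal_hasDerivAt x)

/-- the unit angular vector along the axis -/
noncomputable def nv (u : ℂ → ℝ) (f : ℂ → E) (r : ℝ) : E :=
  Real.exp (-u (r : ℂ)) • fderiv ℝ f (r : ℂ) I

theorem nv_deriv (hu : Sm u) (hf : Sm f) (x : ℝ) :
    HasDerivAt (nv u f) (Real.exp (-u (x : ℂ)) •
      (sd f (x : ℂ) 1 I - fderiv ℝ u (x : ℂ) 1 • fderiv ℝ f (x : ℂ) I)) x := by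
  have h1 := (along hu x).neg.exp
  have h2 := along (sm_fd hf I) x
  have h3 := h1.smul h2
  refine h3.congr_deriv ?_
  unfold sd
  rw [smul_sub, smul_smul]
  simp only [Pi.neg_apply]
  rw [show Real.exp (-u (x : ℂ)) * -(fderiv ℝ u (x : ℂ)) 1 =
    -(Real.exp (-u (x : ℂ)) * (fderiv ℝ u (x : ℂ)) 1) by ring, neg_smul]
  abel

theorem nv_norm (hi : Iso u f) (x : ℝ) : ‖nv u f x‖ = 1 := by
  have h1 := iso_yy hi (x : ℂ)
  have h2 : ‖fderiv ℝ f (x : ℂ) I‖ ^ 2 = Real.exp (u (x : ℂ)) ^ 2 := by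
    rw [← real_inner_self_eq_norm_sq, h1, ← Real.exp_nat_mul]
    norm_num
  have h3 : ‖fderiv ℝ f (x : ℂ) I‖ = Real.exp (u (x : ℂ)) := by
    have := (sq_eq_sq₀ (norm_nonneg _) (Real.exp_pos _).le).mp h2
    exact this
  unfold nv
  rw [norm_smul, h3, Real.norm_of_nonneg (Real.exp_pos _).le, ← Real.exp_add]
  simp

theorem sm_cont {F : Type*} [NormedAddCommGroup F] [NormedSpace ℝ F] {g : ℂ → F} (hg : Sm g) :
    Continuous (fun r : ℝ => g (r : ℂ)) :=
  hg.continuous.comp Complex.continuous_ofReal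

/-- variation of the unit angular vector along the axis -/
theorem ray (hu : Sm u) (hr : Rad u) (hf : Sm f) (hi : Iso u f) {R : ℝ} (hR : 0 < R)
    (G G' : ℝ → ℝ) (hG : ∀ x ∈ Set.Icc 0 R, HasDerivWithinAt G (G' x) (Set.Icc 0 R) x)
    (hG0 : ∀ x ∈ Set.Icc 0 R, 0 ≤ G' x)
    (hlap : ∀ x ∈ Set.Icc 0 R, lap u (x : ℂ) ≤ G' x ^ 2)
    (hang : ∀ x ∈ Set.Ioo 0 R,
      inner ℝ (sff f (x : ℂ) 1 1) (sff f (x : ℂ) I I) ≤ (0 : ℝ)) :
    ‖nv u f R - nv u f 0‖ ≤ G R - G 0 := by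
  set S : ℝ → E := fun x => sd f (x : ℂ) 1 I - fderiv ℝ u (x : ℂ) 1 • fderiv ℝ f (x : ℂ) I with hS
  have cS : Continuous S := by
    refine (sm_cont (sm_fd (sm_fd hf I) 1)).sub ?_
    exact (sm_cont (sm_fd hu 1)).smul (sm_cont (sm_fd hf I))
  have cl : Continuous (fun x : ℝ => lap u (x : ℂ) * Real.exp (2 * u (x : ℂ))) := by
    have h1 : Continuous (fun x : ℝ => lap u (x : ℂ)) :=
      (sm_cont (sm_fd (sm_fd hu 1) 1)).add (sm_cont (sm_fd (sm_fd hu I) I))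
    exact h1.mul (Real.continuous_exp.comp (continuous_const.mul (sm_cont hu)))
  have key : ∀ x ∈ Set.Icc (0 : ℝ) R, inner ℝ (S x) (S x) ≤ lap u (x : ℂ) * Real.exp (2 * u (x : ℂ)) := by
    have hcl : IsClosed {x : ℝ | inner ℝ (S x) (S x) ≤ lap u (x : ℂ) * Real.exp (2 * u (x : ℂ))} :=
      isClosed_le (cS.inner cS) cl
    have hsub : Set.Ioo (0 : ℝ) R ⊆
        {x : ℝ | inner ℝ (S x) (S x) ≤ lap u (x : ℂ) * Real.exp (2 * u (x : ℂ))} := by
      intro x hx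
      have g := gauss_axis hu hf hi (rad_y hu hr x)
      have h := hang x hx
      change inner ℝ (S x) (S x) ≤ _
      simp only [hS]
      rw [g]
      linarith
    have h := hcl.closure_subset_iff.mpr hsub
    rw [closure_Ioo hR.ne] at h
    exact h
  have bound : ∀ x ∈ Set.Ico (0 : ℝ) R, ‖Real.exp (-u (x : ℂ)) • S x‖ ≤ G' x := by
    intro x hx
    have hx' : x ∈ Set.Icc (0 : ℝ) R := ⟨hx.1, hx.2.le⟩
    have h1 := key x hx'
    rw [real_inner_self_eq_norm_sq] at h1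
    have h2 : ‖Real.exp (-u (x : ℂ)) • S x‖ ^ 2 ≤ G' x ^ 2 := by
      rw [norm_smul, mul_pow, Real.norm_of_nonneg (Real.exp_pos _).le]
      have h3 : Real.exp (-u (x : ℂ)) ^ 2 * Real.exp (2 * u (x : ℂ)) = 1 := by
        rw [← Real.exp_nat_mul, ← Real.exp_add]
        simp
      have h4 : 0 < Real.exp (-u (x : ℂ)) ^ 2 := by positivity
      calc Real.exp (-u (x : ℂ)) ^ 2 * ‖S x‖ ^ 2
          ≤ Real.exp (-u (x : ℂ)) ^ 2 * (lap u (x : ℂ) * Real.exp (2 * u (x : ℂ))) := by gcongr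
        _ = lap u (x : ℂ) * (Real.exp (-u (x : ℂ)) ^ 2 * Real.exp (2 * u (x : ℂ))) := by ring
        _ = lap u (x : ℂ) := by rw [h3, mul_one]
        _ ≤ G' x ^ 2 := hlap x hx'
    exact (sq_le_sq₀ (norm_nonneg _) (hG0 x hx')).mp h2
  have h := image_norm_le_of_norm_deriv_right_le_deriv_boundary' (a := 0) (b := R)
    (f := fun x => nv u f x - nv u f 0) (f' := fun x => Real.exp (-u (x : ℂ)) • S x)
    (B := fun x => G x - G 0) (B' := G') ?_ ?_ ?_ ?_ ?_ bound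
  · exact h ⟨hR.le, le_rfl⟩
  · intro x _
    exact ((nv_deriv hu hf x).sub_const _).continuousAt.continuousWithinAt
  · intro x _
    exact ((nv_deriv hu hf x).sub_const _).hasDerivWithinAt
  · simp
  · intro x hx
    exact ((hG x hx).sub_const _).continuousWithinAt
  · intro x hx
    have h1 := (hG x ⟨hx.1, hx.2.le⟩).sub_const (G 0)
    exact h1.mono_of_mem_nhdsWithin (Icc_mem_nhdsGE_of_mem hx)

/-- The comparison inequality. -/
theorem polar (hu : Sm u) (hr : Rad u) (hf : Sm f) (hi : Iso u f) {R : ℝ} (hR : 0 < R)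
    (G G' : ℝ → ℝ) (hG : ∀ x ∈ Set.Icc 0 R, HasDerivWithinAt G (G' x) (Set.Icc 0 R) x)
    (hG0 : ∀ x ∈ Set.Icc 0 R, 0 ≤ G' x)
    (hlap : ∀ x ∈ Set.Icc 0 R, lap u (x : ℂ) ≤ G' x ^ 2)
    (T : ℝ) (hT : ∀ c : ℂ, ‖c‖ = 1 → ‖f (c * R) - f 0‖ ≤ T)
    (hang : ∀ c : ℂ, ‖c‖ = 1 → ∀ x ∈ Set.Ioo (0 : ℝ) R,
      inner ℝ (sff f (c * x) c c) (sff f (c * x) (c * I) (c * I)) ≤ (0 : ℝ)) :
    R * Real.exp (u (R : ℂ)) * (1 - (G R - G 0) ^ 2 / 2) ≤ T := by
  -- Rolle
  set e : ℝ → ℂ := fun θ => Complex.exp ((θ : ℂ) * I) with he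
  have hen : ∀ θ, ‖e θ‖ = 1 := fun θ => Complex.norm_exp_ofReal_mul_I θ
  have hed : ∀ θ : ℝ, HasDerivAt e (e θ * I) θ := by
    intro θ
    have h1 : HasDerivAt (fun t : ℝ => (t : ℂ) * I) (1 * I) θ := (ofReal_hasDerivAt θ).mul_const I
    have h2 := h1.cexp
    rw [one_mul] at h2
    exact h2
  set Hf : ℝ → ℝ := fun θ => inner ℝ (f (e θ * R) - f 0) (fderiv ℝ f 0 (e θ * I)) with hHf
  have hHd : ∀ θ : ℝ, HasDerivAt Hf (inner ℝ (f (e θ * R) - f 0) (fderiv ℝ f 0 (e θ * I * I)) +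
      inner ℝ (fderiv ℝ f (e θ * R) (e θ * I * R)) (fderiv ℝ f 0 (e θ * I))) θ := by
    intro θ
    have h1 : HasDerivAt (fun t => f (e t * R) - f 0) (fderiv ℝ f (e θ * R) (e θ * I * R)) θ := by
      have h2 : HasDerivAt (fun t => e t * (R : ℂ)) (e θ * I * R) θ := (hed θ).mul_const _
      have h3 := HasFDerivAt.comp_hasDerivAt θ ((sm_diff hf (e θ * R)).hasFDerivAt) h2
      exact h3.sub_const _
    have h4 : HasDerivAt (fun t => fderiv ℝ f 0 (e t * I)) (fderiv ℝ f 0 (e θ * I * I)) θ := by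
      have h5 : HasDerivAt (fun t => e t * I) (e θ * I * I) θ := (hed θ).mul_const _
      exact HasFDerivAt.comp_hasDerivAt θ ((fderiv ℝ f 0).hasFDerivAt) h5
    exact h1.inner ℝ h4
  have hper : Hf 0 = Hf (2 * Real.pi) := by
    have h1 : e 0 = 1 := by simp [he]
    have h2 : e (2 * Real.pi) = 1 := by
      simp only [he]
      push_cast
      exact Complex.exp_two_pi_mul_I
    simp only [hHf, h1, h2]
  obtain ⟨θ, -, hθ⟩ := exists_hasDerivAt_eq_zero (a := 0) (b := 2 * Real.pi)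
    (by positivity) (fun x _ => (hHd x).continuousAt.continuousWithinAt) hper (fun x _ => hHd x)
  set c : ℂ := e θ with hc
  have hcn : ‖c‖ = 1 := hen θ
  have r1 : c * I * I = -c := by rw [mul_assoc, Complex.I_mul_I]; ring
  have r2 : fderiv ℝ f (c * R) (c * I * R) = R • fderiv ℝ f (c * R) (c * I) := by
    have : c * I * (R : ℂ) = R • (c * I) := by rw [Complex.real_smul]; ring
    rw [this, map_smul]
  rw [r1, r2, map_neg, inner_neg_right, inner_smul_left] at hθ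
  simp only [conj_trivial] at hθ
  -- the rotated map
  have gs := rot_sm hf c
  have gi := rot_iso hf hr hi hcn
  have hray := ray hu hr gs gi hR G G' hG hG0 hlap (fun x hx => by
    rw [rot_sff hf hcn, rot_sff hf hcn, mul_one]
    exact hang c hcn x hx)
  have n1 := nv_norm gi R
  have n0 := nv_norm gi 0
  have hin : inner ℝ (nv u (rot c f) R) (nv u (rot c f) 0) =
      1 - ‖nv u (rot c f) R - nv u (rot c f) 0‖ ^ 2 / 2 := by
    rw [norm_sub_sq_real, n1, n0]; ring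
  have hG1 : 0 ≤ G R - G 0 := le_trans (norm_nonneg _) hray
  have hin2 : 1 - (G R - G 0) ^ 2 / 2 ≤ inner ℝ (nv u (rot c f) R) (nv u (rot c f) 0) := by
    rw [hin]
    have := (sq_le_sq₀ (norm_nonneg _) hG1).mpr hray
    linarith
  have hin3 : inner ℝ (nv u (rot c f) R) (nv u (rot c f) 0) =
      Real.exp (-u (R : ℂ)) * Real.exp (-u 0) *
        inner ℝ (fderiv ℝ f (c * R) (c * I)) (fderiv ℝ f 0 (c * I)) := by
    unfold nv
    rw [rot_fd hf, rot_fd hf, inner_smul_left, inner_smul_right]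
    simp only [conj_trivial, Complex.ofReal_zero, mul_zero]
    ring
  -- estimate of the right-hand side
  have hdf : ‖fderiv ℝ f 0 c‖ = Real.exp (u 0) := by
    have h1 : ‖fderiv ℝ f 0 c‖ ^ 2 = Real.exp (u 0) ^ 2 := by
      rw [← real_inner_self_eq_norm_sq, hi, real_inner_self_eq_norm_sq, hcn, ← Real.exp_nat_mul]
      norm_num
    exact (sq_eq_sq₀ (norm_nonneg _) (Real.exp_pos _).le).mp h1
  have hcs : inner ℝ (f (c * R) - f 0) (fderiv ℝ f 0 c) ≤ T * Real.exp (u 0) := by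
    refine (real_inner_le_norm _ _).trans ?_
    rw [hdf]
    exact mul_le_mul_of_nonneg_right (hT c hcn) (Real.exp_pos _).le
  have hx : R * inner ℝ (fderiv ℝ f (c * R) (c * I)) (fderiv ℝ f 0 (c * I)) ≤
      T * Real.exp (u 0) := by linarith
  set X : ℝ := inner ℝ (fderiv ℝ f (c * R) (c * I)) (fderiv ℝ f 0 (c * I)) with hX
  rw [hin3] at hin2
  have hp1 : 0 < Real.exp (u (R : ℂ)) := Real.exp_pos _
  have hp0 : 0 < Real.exp (u 0) := Real.exp_pos _
  have q1 : Real.exp (-u (R : ℂ)) * Real.exp (u (R : ℂ)) = 1 := by rw [← Real.exp_add]; simp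
  have q0 : Real.exp (-u 0) * Real.exp (u 0) = 1 := by rw [← Real.exp_add]; simp
  have hX2 : (1 - (G R - G 0) ^ 2 / 2) * (Real.exp (u (R : ℂ)) * Real.exp (u 0)) ≤ X := by
    have h1 := mul_le_mul_of_nonneg_right hin2 (mul_pos hp1 hp0).le
    have h2 : Real.exp (-u (R : ℂ)) * Real.exp (-u 0) * X *
        (Real.exp (u (R : ℂ)) * Real.exp (u 0)) =
        (Real.exp (-u (R : ℂ)) * Real.exp (u (R : ℂ))) * (Real.exp (-u 0) * Real.exp (u 0)) * X := by
      ring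
    rw [h2, q1, q0, one_mul, one_mul] at h1
    exact h1
  have hfin : R * Real.exp (u (R : ℂ)) * (1 - (G R - G 0) ^ 2 / 2) * Real.exp (u 0) ≤
      T * Real.exp (u 0) := by
    calc R * Real.exp (u (R : ℂ)) * (1 - (G R - G 0) ^ 2 / 2) * Real.exp (u 0)
        = R * ((1 - (G R - G 0) ^ 2 / 2) * (Real.exp (u (R : ℂ)) * Real.exp (u 0))) := by ring
      _ ≤ R * X := mul_le_mul_of_nonneg_left hX2 hR.le
      _ ≤ T * Real.exp (u 0) := hx
  exact le_of_mul_le_mul_right hfin hp0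

/-- displacement along a ray -/
theorem ray_disp (hf : Sm f) (hi : Iso u f) (hr : Rad u) {a b : ℝ} (hab : a ≤ b)
    (B B' : ℝ → ℝ) (hB : ∀ x ∈ Set.Icc a b, HasDerivWithinAt B (B' x) (Set.Icc a b) x)
    (hle : ∀ x ∈ Set.Icc a b, Real.exp (u (x : ℂ)) ≤ B' x) {c : ℂ} (hc : ‖c‖ = 1) :
    ‖f (c * b) - f (c * a)‖ ≤ B b - B a := by
  have gs := rot_sm hf c
  have gi := rot_iso hf hr hi hc
  have hd : ∀ x : ℝ, HasDerivAt (fun r : ℝ => rot c f (r : ℂ)) (fderiv ℝ (rot c f) (x : ℂ) 1) x :=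
    fun x => along gs x
  have hn : ∀ x : ℝ, ‖fderiv ℝ (rot c f) (x : ℂ) 1‖ = Real.exp (u (x : ℂ)) := by
    intro x
    have h1 : ‖fderiv ℝ (rot c f) (x : ℂ) 1‖ ^ 2 = Real.exp (u (x : ℂ)) ^ 2 := by
      rw [← real_inner_self_eq_norm_sq, iso_xx gi, ← Real.exp_nat_mul]
      norm_num
    exact (sq_eq_sq₀ (norm_nonneg _) (Real.exp_pos _).le).mp h1
  have h := image_norm_le_of_norm_deriv_right_le_deriv_boundary' (a := a) (b := b)
    (f := fun x : ℝ => rot c f (x : ℂ) - rot c f (a : ℂ))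
    (f' := fun x => fderiv ℝ (rot c f) (x : ℂ) 1)
    (B := fun x => B x - B a) (B' := B') ?_ ?_ ?_ ?_ ?_ ?_
  · exact h ⟨hab, le_rfl⟩
  · intro x _
    exact ((hd x).sub_const _).continuousAt.continuousWithinAt
  · intro x _
    exact ((hd x).sub_const _).hasDerivWithinAt
  · simp
  · intro x hx
    exact ((hB x hx).sub_const _).continuousWithinAt
  · intro x hx
    have h1 := (hB x ⟨hx.1, hx.2.le⟩).sub_const (B a)
    exact h1.mono_of_mem_nhdsWithin (Icc_mem_nhdsGE_of_mem hx)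
  · intro x hx
    rw [hn]
    exact hle x ⟨hx.1, hx.2.le⟩

end Pool.Agent.SadSym
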