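import Pool.Agent.SadSym.Sym

/-!
# The metrics `((1 + |z|^2) (1 + |z|^40))^(a / 20) |dz|^2`
-/

set_option autoImplicit false

namespace Pool.Agent.SadSym

open Complex

/-- the conformal factor -/
noncomputable def ua (a : ℝ) (z : ℂ) : ℝ :=
  a / 40 * (Real.log (1 + ‖z‖ ^ 2) + Real.log (1 + (‖z‖ ^ 2) ^ 20))

noncomputable def kk (a s : ℝ) : ℝ := a / 40 * (1 / (1 + s) + 20 * s ^ 19 / (1 + s ^ 20))

noncomputable def kd (a s : ℝ) : ℝ :=
  a / 40 * (-(1 / (1 + s) ^ 2) + (380 * s ^ 18 - 20 * s ^ 38) / (1 + s ^ 20) ^ 2)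

theorem ua_sm (a : ℝ) : Sm (ua a) := by
  have h1 : ContDiff ℝ ((⊤ : ℕ∞) : WithTop ℕ∞) (fun z : ℂ => ‖z‖ ^ 2) := contDiff_norm_sq ℝ
  refine contDiff_const.mul (ContDiff.add ?_ ?_)
  · exact (contDiff_const.add h1).log fun z => by positivity
  · exact (contDiff_const.add (h1.pow 20)).log fun z => by positivity

theorem ua_rad (a : ℝ) : Rad (ua a) := by
  intro z w h
  simp only [ua, h]

theorem ua_nonneg {a : ℝ} (ha : 0 ≤ a) (z : ℂ) : 0 ≤ ua a z := by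
  unfold ua
  have h1 : 0 ≤ Real.log (1 + ‖z‖ ^ 2) := Real.log_nonneg (by
    have : 0 ≤ ‖z‖ ^ 2 := by positivity
    linarith)
  have h2 : 0 ≤ Real.log (1 + (‖z‖ ^ 2) ^ 20) := Real.log_nonneg (by
    have : 0 ≤ (‖z‖ ^ 2) ^ 20 := by positivity
    linarith)
  positivity

theorem nsq_deriv (z : ℂ) : HasFDerivAt (fun z : ℂ => ‖z‖ ^ 2) (2 • (innerSL ℝ z)) z :=
  (hasStrictFDerivAt_norm_sq z).hasFDerivAt

theorem h_deriv (a : ℝ) {s : ℝ} (hs : 0 ≤ s) :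
    HasDerivAt (fun s => a / 40 * (Real.log (1 + s) + Real.log (1 + s ^ 20))) (kk a s) s := by
  have h1 : HasDerivAt (fun s : ℝ => 1 + s) 1 s := (hasDerivAt_id s).const_add 1
  have h2 : HasDerivAt (fun s : ℝ => 1 + s ^ 20) (20 * s ^ 19) s := by
    have := (hasDerivAt_pow 20 s).const_add 1
    exact_mod_cast this
  have h3 := (h1.log (by positivity)).add (h2.log (by positivity))
  exact h3.const_mul (a / 40)

theorem k_deriv (a : ℝ) {s : ℝ} (hs : 0 ≤ s) : HasDerivAt (kk a) (kd a s) s := by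
  have h1 : HasDerivAt (fun s : ℝ => 1 + s) 1 s := (hasDerivAt_id s).const_add 1
  have h2 : HasDerivAt (fun s : ℝ => 1 + s ^ 20) (20 * s ^ 19) s := by
    have := (hasDerivAt_pow 20 s).const_add 1
    exact_mod_cast this
  have h4 : HasDerivAt (fun s : ℝ => 20 * s ^ 19) (20 * (19 * s ^ 18)) s := by
    have := (hasDerivAt_pow 19 s).const_mul 20
    exact_mod_cast this
  have p1 : (1 + s) ≠ 0 := by positivity
  have p2 : (1 + s ^ 20) ≠ 0 := by positivity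
  have h5 := ((hasDerivAt_const s (1 : ℝ)).div h1 p1).add (h4.div h2 p2)
  have h6 := h5.const_mul (a / 40)
  refine h6.congr_deriv ?_
  unfold kd
  field_simp
  ring

theorem ua_fd (a : ℝ) (z v : ℂ) :
    fderiv ℝ (ua a) z v = kk a (‖z‖ ^ 2) * (2 * inner ℝ z v) := by
  have h1 := (h_deriv a (s := ‖z‖ ^ 2) (by positivity)).comp_hasFDerivAt z (nsq_deriv z)
  have h2 : HasFDerivAt (ua a) _ z := h1
  rw [h2.fderiv]
  simp only [smul_apply, smul_eq_mul, innerSL_apply_apply, nsmul_eq_mul, Nat.cast_ofNat]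

theorem ua_sd (a : ℝ) (z v : ℂ) :
    fderiv ℝ (fun ζ => fderiv ℝ (ua a) ζ v) z v =
      kd a (‖z‖ ^ 2) * (2 * inner ℝ z v) ^ 2 + kk a (‖z‖ ^ 2) * (2 * ‖v‖ ^ 2) := by
  have e : (fun ζ => fderiv ℝ (ua a) ζ v) = fun ζ => kk a (‖ζ‖ ^ 2) * (2 * inner ℝ ζ v) :=
    funext fun ζ => ua_fd a ζ v
  rw [e]
  have h1 := (k_deriv a (s := ‖z‖ ^ 2) (by positivity)).comp_hasFDerivAt z (nsq_deriv z)
  have h2 : HasFDerivAt (fun ζ : ℂ => 2 * (inner ℝ ζ v : ℝ)) (2 • (innerSL ℝ v)) z := by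
    have h3 : HasFDerivAt (fun ζ : ℂ => (inner ℝ v ζ : ℝ)) (innerSL ℝ v) z :=
      (innerSL ℝ v).hasFDerivAt
    have h4 := h3.const_mul 2
    have e2 : (fun ζ : ℂ => 2 * (inner ℝ ζ v : ℝ)) = fun ζ => 2 * (inner ℝ v ζ : ℝ) := by
      funext ζ; rw [real_inner_comm]
    rw [e2]
    refine h4.congr_fderiv ?_
    ext w
    simp only [smul_apply, smul_eq_mul, innerSL_apply_apply, nsmul_eq_mul, Nat.cast_ofNat]
  have h5 : HasFDerivAt (fun ζ : ℂ => kk a (‖ζ‖ ^ 2) * (2 * inner ℝ ζ v)) _ z := h1.mul h2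
  rw [h5.fderiv]
  simp only [add_apply, smul_apply, smul_eq_mul, innerSL_apply_apply, Function.comp]
  rw [real_inner_self_eq_norm_sq]
  simp only [nsmul_eq_mul, Nat.cast_ofNat]
  ring

theorem ua_lap (a : ℝ) (z : ℂ) :
    lap (ua a) z = a / 10 * ((1 / (1 + ‖z‖ ^ 2)) ^ 2 +
      400 * (‖z‖ ^ 2) ^ 19 / (1 + (‖z‖ ^ 2) ^ 20) ^ 2) := by
  unfold lap
  rw [ua_sd, ua_sd]
  have e1 : (inner ℝ z 1 : ℝ) = z.re := by rw [Complex.inner]; simp
  have e2 : (inner ℝ z I : ℝ) = z.im := by rw [Complex.inner]; simp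
  have e3 : ‖z‖ ^ 2 = z.re ^ 2 + z.im ^ 2 := by
    rw [← Complex.normSq_eq_norm_sq, Complex.normSq_apply]; ring
  rw [e1, e2, norm_one, Complex.norm_I]
  set s := ‖z‖ ^ 2 with hs
  have hs0 : 0 ≤ s := by positivity
  have e4 : kd a s * (2 * z.re) ^ 2 + kk a s * (2 * 1 ^ 2) +
      (kd a s * (2 * z.im) ^ 2 + kk a s * (2 * 1 ^ 2)) = 4 * (kd a s * s + kk a s) := by
    rw [e3]; ring
  rw [e4]
  have p1 : (1 + s) ≠ 0 := by positivity
  have p2 : (1 + s ^ 20) ≠ 0 := by positivity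
  unfold kd kk
  field_simp
  ring

theorem ua_lap_pos {a : ℝ} (ha : 0 < a) (z : ℂ) : 0 < lap (ua a) z := by
  rw [ua_lap]
  positivity

theorem norm_ofReal_sq (x : ℝ) : ‖(x : ℂ)‖ ^ 2 = x ^ 2 := by
  rw [Complex.norm_real, Real.norm_eq_abs, sq_abs]

/-- the comparison function for the angle -/
noncomputable def GG (a x : ℝ) : ℝ := Real.sqrt (a / 10) * (Real.arctan x + Real.arctan (x ^ 20))

noncomputable def GG' (a x : ℝ) : ℝ :=
  Real.sqrt (a / 10) * (1 / (1 + x ^ 2) + 20 * x ^ 19 / (1 + (x ^ 20) ^ 2))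

theorem GG_deriv (a x : ℝ) : HasDerivAt (GG a) (GG' a x) x := by
  have h1 := Real.hasDerivAt_arctan x
  have h2 : HasDerivAt (fun x : ℝ => x ^ 20) (20 * x ^ 19) x := by
    have := hasDerivAt_pow 20 x
    exact_mod_cast this
  have h3 := h2.arctan
  have h4 := (h1.add h3).const_mul (Real.sqrt (a / 10))
  refine h4.congr_deriv ?_
  unfold GG'
  ring

theorem GG_lap {a : ℝ} (ha : 0 ≤ a) {x : ℝ} (hx : 0 ≤ x) : lap (ua a) (x : ℂ) ≤ GG' a x ^ 2 := by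
  rw [ua_lap, norm_ofReal_sq]
  unfold GG'
  rw [mul_pow, Real.sq_sqrt (by positivity)]
  refine mul_le_mul_of_nonneg_left ?_ (by positivity)
  have e1 : 400 * (x ^ 2) ^ 19 / (1 + (x ^ 2) ^ 20) ^ 2 =
      (20 * x ^ 19 / (1 + (x ^ 20) ^ 2)) ^ 2 := by
    rw [div_pow]
    congr 1 <;> ring
  rw [e1]
  have p : 0 ≤ (1 / (1 + x ^ 2)) * (20 * x ^ 19 / (1 + (x ^ 20) ^ 2)) := by positivity
  nlinarith

theorem GG_bound {a : ℝ} (ha : 0 < a) (x : ℝ) (hx : 0 ≤ x) : (GG a x - GG a 0) ^ 2 / 2 < a / 2 := by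
  have h0 : GG a 0 = 0 := by simp [GG]
  rw [h0, sub_zero]
  unfold GG
  rw [mul_pow, Real.sq_sqrt (by positivity)]
  have h1 : Real.arctan x < Real.pi / 2 := Real.arctan_lt_pi_div_two x
  have h2 : Real.arctan (x ^ 20) < Real.pi / 2 := Real.arctan_lt_pi_div_two _
  have h3 : 0 ≤ Real.arctan x := Real.arctan_nonneg.mpr hx
  have h4 : 0 ≤ Real.arctan (x ^ 20) := Real.arctan_nonneg.mpr (by positivity)
  have h5 : (Real.arctan x + Real.arctan (x ^ 20)) ^ 2 < 10 := by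
    have h6 : Real.arctan x + Real.arctan (x ^ 20) < Real.pi := by linarith
    have h7 : Real.pi < 3.15 := Real.pi_lt_d2
    nlinarith
  have h8 : a / 10 * (Real.arctan x + Real.arctan (x ^ 20)) ^ 2 < a / 10 * 10 :=
    mul_lt_mul_of_pos_left h5 (by positivity)
  linarith

/-- radial derivative -/
theorem ua_radial (a : ℝ) (z : ℂ) :
    fderiv ℝ (ua a) z z = a / 20 * (‖z‖ ^ 2 / (1 + ‖z‖ ^ 2)) +
      a * ((‖z‖ ^ 2) ^ 20 / (1 + (‖z‖ ^ 2) ^ 20)) := by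
  rw [ua_fd, real_inner_self_eq_norm_sq]
  set s := ‖z‖ ^ 2 with hs
  have hs0 : 0 ≤ s := by positivity
  have p1 : (1 + s) ≠ 0 := by positivity
  have p2 : (1 + s ^ 20) ≠ 0 := by positivity
  unfold kk
  field_simp
  ring

theorem ua_radial_le {a : ℝ} (ha : 0 ≤ a) (z : ℂ) : fderiv ℝ (ua a) z z ≤ 21 / 20 * a := by
  rw [ua_radial]
  set s := ‖z‖ ^ 2 with hs
  have hs0 : 0 ≤ s := by positivity
  have h1 : s / (1 + s) ≤ 1 := by
    rw [div_le_one (by positivity)]; linarith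
  have h2 : s ^ 20 / (1 + s ^ 20) ≤ 1 := by
    rw [div_le_one (by positivity)]; linarith
  nlinarith

theorem ua_radial_ge {a : ℝ} (ha : 0 ≤ a) {x : ℝ} (hx : 2 ≤ x) :
    9 / 10 * a ≤ x * fderiv ℝ (ua a) (x : ℂ) 1 := by
  have h0 : x * fderiv ℝ (ua a) (x : ℂ) 1 = fderiv ℝ (ua a) (x : ℂ) (x : ℂ) := by
    have : fderiv ℝ (ua a) (x : ℂ) (x • (1 : ℂ)) = x • fderiv ℝ (ua a) (x : ℂ) 1 := map_smul _ _ _
    rw [Complex.real_smul, mul_one] at this
    rw [this, smul_eq_mul]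
  rw [h0, ua_radial, norm_ofReal_sq]
  have h1 : 0 ≤ a / 20 * (x ^ 2 / (1 + x ^ 2)) := by positivity
  have h2 : 9 / 10 ≤ (x ^ 2) ^ 20 / (1 + (x ^ 2) ^ 20) := by
    rw [le_div_iff₀ (by positivity)]
    have h3 : (2 : ℝ) ^ 2 ≤ x ^ 2 := pow_le_pow_left₀ (by norm_num) hx 2
    have h4 : ((2 : ℝ) ^ 2) ^ 20 ≤ (x ^ 2) ^ 20 := pow_le_pow_left₀ (by norm_num) h3 20
    norm_num at h4
    linarith
  nlinarith

theorem ua_mono {a : ℝ} (ha : 0 ≤ a) {x y : ℝ} (hx : 0 ≤ x) (hxy : x ≤ y) :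
    ua a (x : ℂ) ≤ ua a (y : ℂ) := by
  unfold ua
  rw [norm_ofReal_sq, norm_ofReal_sq]
  have h1 : x ^ 2 ≤ y ^ 2 := pow_le_pow_left₀ hx hxy 2
  have h2 : (x ^ 2) ^ 20 ≤ (y ^ 2) ^ 20 := pow_le_pow_left₀ (by positivity) h1 20
  have h3 : Real.log (1 + x ^ 2) ≤ Real.log (1 + y ^ 2) :=
    Real.log_le_log (by positivity) (by linarith)
  have h4 : Real.log (1 + (x ^ 2) ^ 20) ≤ Real.log (1 + (y ^ 2) ^ 20) :=
    Real.log_le_log (by positivity) (by linarith)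
  exact mul_le_mul_of_nonneg_left (add_le_add h3 h4) (by positivity)

variable {E : Type*} [NormedAddCommGroup E] [InnerProductSpace ℝ E]

/-- Every isometric immersion has an acute angle. -/
theorem acute {a : ℝ} (ha : 0 < a) (ha2 : a ≤ 1 / 2) {f : ℂ → E} (hf : Sm f) (hi : Iso (ua a) f) :
    ∃ (c : ℂ) (x : ℝ), ‖c‖ = 1 ∧ 0 < x ∧ x < 12 ∧
      0 < (inner ℝ (sff f (c * x) c c) (sff f (c * x) (c * I) (c * I)) : ℝ) := by
  by_contra hcon
  push Not at hcon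
  have hu := ua_sm a
  have hr := ua_rad a
  set ph : ℝ → ℝ := fun x => x * Real.exp (ua a (x : ℂ)) with hph
  have hphd : ∀ x : ℝ, HasDerivAt ph
      (Real.exp (ua a (x : ℂ)) * (1 + x * fderiv ℝ (ua a) (x : ℂ) 1)) x := by
    intro x
    have h1 := (hasDerivAt_id x).mul (along hu x).exp
    refine h1.congr_deriv ?_
    simp only [id]
    ring
  have hE2 : 0 < Real.exp (ua a ((2 : ℝ) : ℂ)) := Real.exp_pos _
  have hT : ∀ c : ℂ, ‖c‖ = 1 → ‖f (c * (12 : ℝ)) - f 0‖ ≤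
      ph 2 + (ph 12 - ph 2) / (1 + 9 / 10 * a) := by
    intro c hc
    have h1 := ray_disp hf hi hr (a := 0) (b := 2) (by norm_num)
      (fun x => x * Real.exp (ua a ((2 : ℝ) : ℂ))) (fun _ => Real.exp (ua a ((2 : ℝ) : ℂ)))
      (fun x _ => by
        have := ((hasDerivAt_id x).mul_const (Real.exp (ua a ((2 : ℝ) : ℂ)))).hasDerivWithinAt
          (s := Set.Icc 0 2)
        rw [one_mul] at this
        exact this)
      (fun x hx => Real.exp_le_exp.mpr (ua_mono ha.le hx.1 hx.2)) hc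
    have h2 := ray_disp hf hi hr (a := 2) (b := 12) (by norm_num)
      (fun x => ph x / (1 + 9 / 10 * a))
      (fun x => Real.exp (ua a (x : ℂ)) * (1 + x * fderiv ℝ (ua a) (x : ℂ) 1) / (1 + 9 / 10 * a))
      (fun x _ => ((hphd x).div_const _).hasDerivWithinAt)
      (fun x hx => by
        rw [le_div_iff₀ (by positivity)]
        have := ua_radial_ge ha.le hx.1
        exact mul_le_mul_of_nonneg_left (by linarith) (Real.exp_pos _).le) hc
    have h3 : ‖f (c * (12 : ℝ)) - f 0‖ ≤ ‖f (c * (12 : ℝ)) - f (c * (2 : ℝ))‖ +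
        ‖f (c * (2 : ℝ)) - f (c * (0 : ℝ))‖ := by
      have e : f (c * (12 : ℝ)) - f 0 = (f (c * (12 : ℝ)) - f (c * (2 : ℝ))) +
          (f (c * (2 : ℝ)) - f (c * (0 : ℝ))) := by
        rw [Complex.ofReal_zero, mul_zero]; abel
      rw [e]
      exact norm_add_le _ _
    have h4 : ph 12 / (1 + 9 / 10 * a) - ph 2 / (1 + 9 / 10 * a) =
        (ph 12 - ph 2) / (1 + 9 / 10 * a) := by ring
    have h5 : (2 : ℝ) * Real.exp (ua a ((2 : ℝ) : ℂ)) - 0 * Real.exp (ua a ((2 : ℝ) : ℂ)) =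
        ph 2 := by simp [hph]
    simp only [h5] at h1
    simp only [h4] at h2
    linarith
  have hmain := polar hu hr hf hi (R := 12) (by norm_num) (GG a) (GG' a)
    (fun x _ => (GG_deriv a x).hasDerivWithinAt)
    (fun x hx => by
      have h0 : 0 ≤ x := hx.1
      unfold GG'
      positivity)
    (fun x hx => GG_lap ha.le hx.1) _ hT
    (fun c hc x hx => hcon c x hc hx.1 hx.2)
  have hb := GG_bound ha 12 (by norm_num)
  have hph2 : 0 < ph 2 := by simp only [hph]; positivity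
  have hph12 : 6 * ph 2 ≤ ph 12 := by
    simp only [hph]
    have h := Real.exp_le_exp.mpr (ua_mono ha.le (x := 2) (y := 12) (by norm_num) (by norm_num))
    linarith
  have hpos : 0 < ph 12 := by linarith
  have h1 : ph 12 * (1 - a / 2) < ph 2 + (ph 12 - ph 2) / (1 + 9 / 10 * a) := by
    refine lt_of_lt_of_le ?_ hmain
    exact mul_lt_mul_of_pos_left (by linarith) hpos
  have hd : 0 < 1 + 9 / 10 * a := by positivity
  have h2 : ph 12 * (1 - a / 2) * (1 + 9 / 10 * a) < ph 2 * (1 + 9 / 10 * a) + (ph 12 - ph 2) := by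
    have := mul_lt_mul_of_pos_right h1 hd
    rw [add_mul, div_mul_cancel₀ _ hd.ne'] at this
    exact this
  have h3 : ph 12 * ((1 - a / 2) * (1 + 9 / 10 * a) - 1) < ph 2 * (9 / 10 * a) := by nlinarith
  have h4 : 7 / 40 * a ≤ (1 - a / 2) * (1 + 9 / 10 * a) - 1 := by nlinarith
  have h5 : ph 12 * (7 / 40 * a) < ph 2 * (9 / 10 * a) :=
    lt_of_le_of_lt (mul_le_mul_of_nonneg_left h4 hpos.le) h3
  have h6 : 6 * ph 2 * (7 / 40 * a) ≤ ph 12 * (7 / 40 * a) :=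
    mul_le_mul_of_nonneg_right hph12 (by positivity)
  nlinarith [mul_pos hph2 ha]

end Pool.Agent.SadSym
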