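import Pool.Agent.SadSym.Basic

/-!
# Isometric immersions of rotationally symmetric planes: comparison along rays
-/

set_option autoImplicit false

namespace Pool.Agent.SadSym

open Complex

variable {E : Type*} [NormedAddCommGroup E] [InnerProductSpace ℝ E]

/-- component of `x` normal to the image of the differential of `f` at `z` -/
noncomputable def nor (f : ℂ → E) (z : ℂ) (x : E) : E :=
  x - (LinearMap.range (fderiv ℝ f z : ℂ →ₗ[ℝ] E)).starProjection x

/-- second fundamental form -/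
noncomputable def sff (f : ℂ → E) (z v w : ℂ) : E := nor f z (sd f z v w)

/-- rotational symmetry -/
def Rad (u : ℂ → ℝ) : Prop := ∀ z w : ℂ, ‖z‖ = ‖w‖ → u z = u w

/-- precomposition with a rotation -/
def rot (c : ℂ) (f : ℂ → E) : ℂ → E := fun z => f (c * z)

section rot

variable {f : ℂ → E} {u : ℂ → ℝ}

theorem rot_sm (hf : Sm f) (c : ℂ) : Sm (rot c f) :=
  hf.comp (contDiff_const.mul contDiff_id)

theorem rot_fd (hf : Sm f) (c z v : ℂ) : fderiv ℝ (rot c f) z v = fderiv ℝ f (c * z) (c * v) := by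
  have h1 : HasFDerivAt (fun z : ℂ => c * z) (c • ContinuousLinearMap.id ℝ ℂ) z :=
    (hasFDerivAt_id z).const_mul c
  have h2 : HasFDerivAt (rot c f) _ z :=
    HasFDerivAt.comp z ((sm_diff hf (c * z)).hasFDerivAt) h1
  rw [h2.fderiv]
  rfl

theorem rot_sd (hf : Sm f) (c z v w : ℂ) : sd (rot c f) z v w = sd f (c * z) (c * v) (c * w) := by
  unfold sd
  have e : (fun ζ => fderiv ℝ (rot c f) ζ w) = rot c (fun ζ => fderiv ℝ f ζ (c * w)) := by
    funext ζ
    exact rot_fd hf c ζ w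
  rw [e, rot_fd (sm_fd hf (c * w))]

theorem inner_mul_unit {c : ℂ} (hc : ‖c‖ = 1) (v w : ℂ) :
    inner ℝ (c * v) (c * w) = (inner ℝ v w : ℝ) := by
  rw [Complex.inner, Complex.inner, map_mul]
  have h : c * (starRingEnd ℂ) c = 1 := by
    rw [Complex.mul_conj, Complex.normSq_eq_norm_sq, hc]; simp
  have e : c * w * ((starRingEnd ℂ) c * (starRingEnd ℂ) v) =
      (c * (starRingEnd ℂ) c) * (w * (starRingEnd ℂ) v) := by ring
  rw [e, h, one_mul]

theorem rot_iso (hf : Sm f) (hr : Rad u) (hi : Iso u f) {c : ℂ} (hc : ‖c‖ = 1) :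
    Iso u (rot c f) := by
  intro z v w
  rw [rot_fd hf, rot_fd hf, hi, inner_mul_unit hc]
  rw [hr (c * z) z (by rw [norm_mul, hc, one_mul])]

theorem rot_range (hf : Sm f) {c : ℂ} (hc : ‖c‖ = 1) (z : ℂ) :
    LinearMap.range (fderiv ℝ (rot c f) z : ℂ →ₗ[ℝ] E) =
      LinearMap.range (fderiv ℝ f (c * z) : ℂ →ₗ[ℝ] E) := by
  have c0 : c ≠ 0 := by
    intro h; rw [h, norm_zero] at hc; exact zero_ne_one hc
  ext x
  constructor
  · rintro ⟨v, rfl⟩
    exact ⟨c * v, (rot_fd hf c z v).symm⟩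
  · rintro ⟨v, rfl⟩
    refine ⟨c⁻¹ * v, ?_⟩
    have := rot_fd hf c z (c⁻¹ * v)
    rw [mul_inv_cancel_left₀ c0] at this
    exact this

theorem rot_sff (hf : Sm f) {c : ℂ} (hc : ‖c‖ = 1) (z v w : ℂ) :
    sff (rot c f) z v w = sff f (c * z) (c * v) (c * w) := by
  unfold sff nor
  have key : ∀ (K L : Submodule ℝ E) [K.HasOrthogonalProjection] [L.HasOrthogonalProjection],
      K = L → ∀ x : E, K.starProjection x = L.starProjection x := by
    intro K L _ _ h x
    subst h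
    rfl
  rw [rot_sd hf, key _ _ (rot_range hf hc z)]

end rot

section axis

variable {f : ℂ → E} {u : ℂ → ℝ}

/-- the derivative of a radial function in the angular direction vanishes -/
theorem rad_y (hu : Sm u) (hr : Rad u) (r : ℝ) : fderiv ℝ u (r : ℂ) I = 0 := by
  have e : u = fun z => u ((starRingEnd ℂ) z) := by
    funext z
    exact hr _ _ (Complex.norm_conj z).symm
  have h1 : HasFDerivAt (fun z : ℂ => (starRingEnd ℂ) z) (Complex.conjCLE : ℂ →L[ℝ] ℂ) (r : ℂ) :=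
    Complex.conjCLE.hasFDerivAt
  have h2 : HasFDerivAt (fun z => u ((starRingEnd ℂ) z)) _ (r : ℂ) :=
    HasFDerivAt.comp (r : ℂ) ((sm_diff hu _).hasFDerivAt) h1
  have h3 : fderiv ℝ u (r : ℂ) I = fderiv ℝ u ((starRingEnd ℂ) (r : ℂ)) ((starRingEnd ℂ) I) := by
    conv_lhs => rw [e]
    rw [h2.fderiv]
    rfl
  rw [Complex.conj_ofReal, Complex.conj_I, map_neg] at h3
  linarith

theorem sff_xx (hu : Sm u) (hf : Sm f) (hi : Iso u f) {z : ℂ} (hy : fderiv ℝ u z I = 0) :
    sff f z 1 1 = sd f z 1 1 - fderiv ℝ u z 1 • fderiv ℝ f z 1 := by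
  unfold sff nor
  congr 1
  refine Submodule.eq_starProjection_of_mem_of_inner_eq_zero ⟨(fderiv ℝ u z 1 : ℂ), ?_⟩ ?_
  · have : ((fderiv ℝ u z 1 : ℝ) : ℂ) = fderiv ℝ u z 1 • (1 : ℂ) := by simp
    rw [this]
    exact map_smul _ _ _
  · rintro _ ⟨v, rfl⟩
    have hv : v = v.re • (1 : ℂ) + v.im • I := by
      apply Complex.ext <;> simp
    have e : (fderiv ℝ f z : ℂ →ₗ[ℝ] E) v =
        v.re • fderiv ℝ f z 1 + v.im • fderiv ℝ f z I := by
      conv_lhs => rw [hv]
      rw [map_add, map_smul, map_smul]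
      rfl
    rw [e]
    have a1 := d_xx hu hf hi z 1
    have a2 := xx_y hu hf hi z
    have a3 := iso_xx hi z
    have a4 := iso_xy hi z
    simp only [inner_add_right, inner_sub_left, inner_smul_left, inner_smul_right, a1, a2, a3, a4,
      hy]
    simp

theorem sff_yy (hu : Sm u) (hf : Sm f) (hi : Iso u f) {z : ℂ} (hy : fderiv ℝ u z I = 0) :
    sff f z I I = sd f z I I + fderiv ℝ u z 1 • fderiv ℝ f z 1 := by
  unfold sff nor
  rw [sub_eq_iff_eq_add, add_assoc, ← sub_eq_iff_eq_add', sub_self]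
  rw [eq_comm, ← eq_neg_iff_add_eq_zero, eq_comm]
  have hm : -(fderiv ℝ u z 1 • fderiv ℝ f z 1) ∈
      LinearMap.range (fderiv ℝ f z : ℂ →ₗ[ℝ] E) := by
    refine ⟨((-(fderiv ℝ u z 1) : ℝ) : ℂ), ?_⟩
    have : ((-(fderiv ℝ u z 1) : ℝ) : ℂ) = (-(fderiv ℝ u z 1)) • (1 : ℂ) := by simp
    rw [this]
    have h2 := map_smul (fderiv ℝ f z : ℂ →ₗ[ℝ] E) (-(fderiv ℝ u z 1)) (1 : ℂ)
    rw [h2, neg_smul]
    rfl
  have h := Submodule.eq_starProjection_of_mem_of_inner_eq_zero (u := sd f z I I) hm ?_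
  · rw [h, neg_neg]
  · rintro _ ⟨v, rfl⟩
    have hv : v = v.re • (1 : ℂ) + v.im • I := by
      apply Complex.ext <;> simp
    have e : (fderiv ℝ f z : ℂ →ₗ[ℝ] E) v =
        v.re • fderiv ℝ f z 1 + v.im • fderiv ℝ f z I := by
      conv_lhs => rw [hv]
      rw [map_add, map_smul, map_smul]
      rfl
    rw [e]
    have a1 := yy_x hu hf hi z
    have a2 := d_yy hu hf hi z I
    have a3 := iso_xx hi z
    have a4 := iso_xy hi z
    simp only [inner_add_right, inner_sub_left, inner_neg_left, inner_smul_left, inner_smul_right,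
      a1, a2, a3, a4, hy]
    simp

/-- Gauss equation on the axis -/
theorem gauss_axis (hu : Sm u) (hf : Sm f) (hi : Iso u f) {z : ℂ} (hy : fderiv ℝ u z I = 0) :
    inner ℝ (sd f z 1 I - fderiv ℝ u z 1 • fderiv ℝ f z I)
        (sd f z 1 I - fderiv ℝ u z 1 • fderiv ℝ f z I) =
      (inner ℝ (sff f z 1 1) (sff f z I I) : ℝ) + lap u z * Real.exp (2 * u z) := by
  rw [sff_xx hu hf hi hy, sff_yy hu hf hi hy]
  have g := gauss hu hf hi z
  have a1 := d_xx hu hf hi z 1
  have a3 := iso_xx hi z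
  have a4 := iso_yy hi z
  have a5 := yy_x hu hf hi z
  have a6 := d_yy hu hf hi z 1
  have b5 : inner ℝ (fderiv ℝ f z 1) (sd f z I I) =
      -(fderiv ℝ u z 1 * Real.exp (2 * u z)) := by rw [real_inner_comm]; exact a5
  have b6 : inner ℝ (fderiv ℝ f z I) (sd f z 1 I) =
      fderiv ℝ u z 1 * Real.exp (2 * u z) := by rw [real_inner_comm]; exact a6
  rw [hy] at g
  simp only [inner_add_right, inner_sub_left, inner_sub_right, inner_smul_left, inner_smul_right,
    a1, a3, a4, b5, b6, a6]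
  simp only [conj_trivial]
  linarith

end axis

end Pool.Agent.SadSym
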