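import Pool.Agent.SadSym.Compare

/-!
# Saddle immersions equivariant under the orthogonal group; completeness
-/

set_option autoImplicit false

namespace Pool.Agent.SadSym

open Complex

variable {E : Type*} [NormedAddCommGroup E] [InnerProductSpace ℝ E]

/-- Saddle: at every point, the second fundamental form in no normal direction is positive definite
(hence, replacing the normal by its opposite, in no normal direction is it definite). -/
def Saddle (f : ℂ → E) : Prop :=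
  ∀ (z : ℂ) (ν : E), (∀ v : ℂ, inner ℝ (fderiv ℝ f z v) ν = (0 : ℝ)) →
    ∃ w : ℂ, w ≠ 0 ∧ inner ℝ (sd f z w w) ν ≤ (0 : ℝ)

/-- Equivariance under the isometries of the plane fixing the origin. -/
def Equivariant (f : ℂ → E) : Prop :=
  ∀ σ : ℂ ≃ₗᵢ[ℝ] ℂ, ∃ R : E ≃ᵃⁱ[ℝ] E, ∀ z : ℂ, f (σ z) = R (f z)

theorem sd_eq {f : ℂ → E} (hf : Sm f) (z v w : ℂ) :
    sd f z v w = fderiv ℝ (fderiv ℝ f) z v w := by
  have hd : DifferentiableAt ℝ (fderiv ℝ f) z :=
    ((hf.fderiv_right (m := ((⊤ : ℕ∞) : WithTop ℕ∞)) le_rfl).differentiable (by simp)) z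
  unfold sd
  rw [fderiv_clm_apply hd (differentiableAt_const w)]
  simp

theorem sd_quad {f : ℂ → E} (hf : Sm f) (z : ℂ) (a b : ℝ) :
    sd f z ((a : ℂ) + b * I) ((a : ℂ) + b * I) =
      (a ^ 2) • sd f z 1 1 + (2 * (a * b)) • sd f z 1 I + (b ^ 2) • sd f z I I := by
  have hs : fderiv ℝ (fderiv ℝ f) z I 1 = fderiv ℝ (fderiv ℝ f) z 1 I := by
    rw [← sd_eq hf, ← sd_eq hf]; exact sd_symm hf z I 1
  have hw : (a : ℂ) + b * I = a • (1 : ℂ) + b • I := by
    rw [Complex.real_smul, Complex.real_smul, mul_one]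
  rw [hw]
  simp only [sd_eq hf, map_add, map_smul, add_apply, smul_apply]
  rw [hs]
  module

theorem eqv {X Y : ℂ → E} (hX : Sm X) (hY : Sm Y) (L : E ≃ₗᵢ[ℝ] E) (k : E)
    (h : ∀ z, Y ((starRingEnd ℂ) z) = L (X z) + k) (z v : ℂ) :
    fderiv ℝ Y ((starRingEnd ℂ) z) ((starRingEnd ℂ) v) = L (fderiv ℝ X z v) := by
  have h1 : HasFDerivAt (fun z : ℂ => (starRingEnd ℂ) z) (Complex.conjCLE : ℂ →L[ℝ] ℂ) z :=
    Complex.conjCLE.hasFDerivAt
  have h2 : HasFDerivAt (fun z => Y ((starRingEnd ℂ) z)) _ z :=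
    HasFDerivAt.comp z ((sm_diff hY _).hasFDerivAt) h1
  have h3 : HasFDerivAt (fun z => L (X z) + k) _ z :=
    (HasFDerivAt.comp z (L.toContinuousLinearEquiv.hasFDerivAt (x := X z))
      ((sm_diff hX z).hasFDerivAt)).add_const k
  have h4 : (fun z => Y ((starRingEnd ℂ) z)) = fun z => L (X z) + k := funext h
  rw [h4] at h2
  have h5 := h2.unique h3
  have h6 := congrArg (fun T : ℂ →L[ℝ] E => T v) h5
  exact h6

/-- a reflection of the plane -/
theorem exists_refl {c : ℂ} (hc : ‖c‖ = 1) :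
    ∃ σ : ℂ ≃ₗᵢ[ℝ] ℂ, ∀ z, σ z = c * c * (starRingEnd ℂ) z := by
  have hcc : ‖c * c‖ = 1 := by rw [norm_mul, hc, one_mul]
  have hm : c * c ∈ Submonoid.unitSphere ℂ := mem_sphere_zero_iff_norm.mpr hcc
  refine ⟨Complex.conjLIE.trans (rotation ⟨c * c, hm⟩), fun z => ?_⟩
  rfl

theorem rot_saddle {f : ℂ → E} (hf : Sm f) {c : ℂ} (hc : ‖c‖ = 1) (hs : Saddle f) :
    Saddle (rot c f) := by
  have c0 : c ≠ 0 := by
    intro h; rw [h, norm_zero] at hc; exact zero_ne_one hc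
  intro z ν hν
  obtain ⟨w, w0, hw⟩ := hs (c * z) ν (fun v => by
    have := hν (c⁻¹ * v)
    rw [rot_fd hf, mul_inv_cancel_left₀ c0] at this
    exact this)
  refine ⟨c⁻¹ * w, mul_ne_zero (inv_ne_zero c0) w0, ?_⟩
  rw [rot_sd hf, mul_inv_cancel_left₀ c0]
  exact hw

/-- Equivariant saddle immersions have non-acute angles. -/
theorem angle_of_equivariant {u : ℂ → ℝ} {f : ℂ → E} (hu : Sm u) (hr : Rad u) (hf : Sm f)
    (hi : Iso u f) (hs : Saddle f) (he : Equivariant f) {c : ℂ} (hc : ‖c‖ = 1) (x : ℝ) :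
    inner ℝ (sff f (c * x) c c) (sff f (c * x) (c * I) (c * I)) ≤ (0 : ℝ) := by
  have gs := rot_sm hf c
  have gi := rot_iso hf hr hi hc
  have gsad := rot_saddle hf hc hs
  obtain ⟨σ, hσ⟩ := exists_refl hc
  obtain ⟨R, hR⟩ := he σ
  have hcc : c * (starRingEnd ℂ) c = 1 := by
    rw [Complex.mul_conj, Complex.normSq_eq_norm_sq, hc]; simp
  set g := rot c f with hg
  have hgR : ∀ z, g ((starRingEnd ℂ) z) = R.linearIsometryEquiv (g z) + R 0 := by
    intro z
    have h1 : g ((starRingEnd ℂ) z) = R (g z) := by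
      have h2 := hR (c * z)
      rw [hσ, map_mul] at h2
      have h3 : c * c * ((starRingEnd ℂ) c * (starRingEnd ℂ) z) = c * (starRingEnd ℂ) z := by
        calc c * c * ((starRingEnd ℂ) c * (starRingEnd ℂ) z)
            = (c * (starRingEnd ℂ) c) * (c * (starRingEnd ℂ) z) := by ring
          _ = _ := by rw [hcc, one_mul]
      rw [h3] at h2
      exact h2
    rw [h1]
    have h4 := R.map_vadd (0 : E) (g z)
    simpa using h4
  have e1 := eqv gs gs R.linearIsometryEquiv (R 0) hgR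
  have e2 : ∀ w z v : ℂ, sd g ((starRingEnd ℂ) z) ((starRingEnd ℂ) v) ((starRingEnd ℂ) w) =
      R.linearIsometryEquiv (sd g z v w) := by
    intro w z v
    unfold sd
    exact eqv (sm_fd gs w) (sm_fd gs ((starRingEnd ℂ) w)) R.linearIsometryEquiv 0
      (fun ζ => by rw [add_zero]; exact e1 ζ w) z v
  have hy := rad_y hu hr x
  have hP := sff_xx hu gs gi hy
  have hQ := sff_yy hu gs gi hy
  set P := sff g (x : ℂ) 1 1 with hPdef
  set Q := sff g (x : ℂ) I I with hQdef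
  have rP : sff f (c * x) c c = P := by
    rw [hPdef, rot_sff hf hc, mul_one]
  have rQ : sff f (c * x) (c * I) (c * I) = Q := by
    rw [hQdef, rot_sff hf hc]
  rw [rP, rQ]
  by_contra hcon
  push Not at hcon
  -- reflection
  have l1 : R.linearIsometryEquiv (fderiv ℝ g (x : ℂ) 1) = fderiv ℝ g (x : ℂ) 1 := by
    have := e1 (x : ℂ) 1
    rw [Complex.conj_ofReal, map_one] at this
    exact this.symm
  have l2 : R.linearIsometryEquiv (sd g (x : ℂ) 1 1) = sd g (x : ℂ) 1 1 := by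
    have := e2 1 (x : ℂ) 1
    rw [Complex.conj_ofReal, map_one] at this
    exact this.symm
  have l3 : R.linearIsometryEquiv (sd g (x : ℂ) 1 I) = -sd g (x : ℂ) 1 I := by
    have := e2 I (x : ℂ) 1
    rw [Complex.conj_ofReal, map_one, Complex.conj_I] at this
    rw [← this, sd_eq gs, sd_eq gs, map_neg]
  have lP : R.linearIsometryEquiv P = P := by
    rw [hP, map_sub, map_smul, l1, l2]
  have hSP : inner ℝ (sd g (x : ℂ) 1 I) P = (0 : ℝ) := by
    have h1 := R.linearIsometryEquiv.inner_map_map (sd g (x : ℂ) 1 I) P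
    rw [l3, lP, inner_neg_left] at h1
    linarith
  -- `P` is normal
  have a1 := d_xx hu gs gi (x : ℂ) 1
  have a2 := xx_y hu gs gi (x : ℂ)
  have a3 := iso_xx gi (x : ℂ)
  have a4 := iso_xy gi (x : ℂ)
  have n1 : inner ℝ (fderiv ℝ g (x : ℂ) 1) P = (0 : ℝ) := by
    rw [real_inner_comm, hP, inner_sub_left, inner_smul_left, a1, a3]
    simp
  have n2 : inner ℝ (fderiv ℝ g (x : ℂ) I) P = (0 : ℝ) := by
    rw [real_inner_comm, hP, inner_sub_left, inner_smul_left, a2, a4, hy]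
    simp
  obtain ⟨w, w0, hw⟩ := gsad (x : ℂ) P (fun v => by
    have hv : v = v.re • (1 : ℂ) + v.im • I := by
      apply Complex.ext <;> simp
    rw [hv, map_add, map_smul, map_smul, inner_add_left, inner_smul_left, inner_smul_left, n1, n2]
    simp)
  have hwq : w = (w.re : ℂ) + w.im * I := (Complex.re_add_im w).symm
  rw [hwq, sd_quad gs, inner_add_left, inner_add_left, inner_smul_left, inner_smul_left,
    inner_smul_left, hSP] at hw
  simp only [conj_trivial, mul_zero, add_zero] at hw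
  have s1 : sd g (x : ℂ) 1 1 = P + fderiv ℝ u (x : ℂ) 1 • fderiv ℝ g (x : ℂ) 1 := by
    rw [hP]; abel
  have s2 : sd g (x : ℂ) I I = Q - fderiv ℝ u (x : ℂ) 1 • fderiv ℝ g (x : ℂ) 1 := by
    rw [hQ]; abel
  have t1 : inner ℝ (sd g (x : ℂ) 1 1) P = inner ℝ P P := by
    rw [s1, inner_add_left, inner_smul_left, n1]; simp
  have t2 : inner ℝ (sd g (x : ℂ) I I) P = inner ℝ P Q := by
    rw [s2, inner_sub_left, inner_smul_left, n1, real_inner_comm]; simp
  rw [t1, t2] at hw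
  have hPP : 0 < inner ℝ P P := by
    rcases eq_or_ne P 0 with h | h
    · rw [h, inner_zero_left] at hcon
      exact absurd hcon (lt_irrefl _)
    · exact real_inner_self_pos.mpr h
  rcases eq_or_ne w.re 0 with h | h
  · have hi' : w.im ≠ 0 := by
      intro h'
      exact w0 (Complex.ext h h')
    have : 0 < w.im ^ 2 := by positivity
    rw [h] at hw
    nlinarith [mul_pos this hcon]
  · have h1 : 0 < w.re ^ 2 := by positivity
    have h2 : 0 ≤ w.im ^ 2 := sq_nonneg _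
    nlinarith [mul_pos h1 hPP, mul_nonneg h2 hcon.le]

/-- Completeness of the metric `exp (2 u) |dz|^2` on the plane: divergent curves have infinite
length. -/
def Complete (u : ℂ → ℝ) : Prop :=
  ∀ γ : ℝ → ℂ, ContDiffOn ℝ 1 γ (Set.Ico 0 1) →
    (∀ K : Set ℂ, IsCompact K → ∃ s < (1 : ℝ), ∀ t ∈ Set.Ioo s 1, γ t ∉ K) →
    ∫⁻ t in Set.Ioo (0 : ℝ) 1, ENNReal.ofReal (Real.exp (u (γ t)) * ‖deriv γ t‖) = ⊤

theorem complete_of_nonneg {u : ℂ → ℝ} (h0 : ∀ z, 0 ≤ u z) : Complete u := by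
  intro γ hγ hdiv
  by_contra hne
  set Lg := ∫⁻ t in Set.Ioo (0 : ℝ) 1, ENNReal.ofReal (Real.exp (u (γ t)) * ‖deriv γ t‖) with hL
  obtain ⟨s, hs1, hs⟩ := hdiv (Metric.closedBall (γ (1 / 2)) Lg.toReal)
    (isCompact_closedBall _ _)
  obtain ⟨t, ht1, ht2⟩ : ∃ t, max s (1 / 2) < t ∧ t < 1 :=
    exists_between (max_lt hs1 (by norm_num))
  have hst : s < t := lt_of_le_of_lt (le_max_left _ _) ht1
  have h2t : 1 / 2 < t := lt_of_le_of_lt (le_max_right _ _) ht1
  apply hs t ⟨hst, ht2⟩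
  rw [Metric.mem_closedBall, dist_eq_norm]
  have hsub : Set.Icc (1 / 2 : ℝ) t ⊆ Set.Ico 0 1 := fun x hx =>
    ⟨by linarith [hx.1], lt_of_le_of_lt hx.2 ht2⟩
  have h1 := enorm_sub_le_lintegral_deriv_of_contDiffOn_Icc (hγ.mono hsub) h2t.le
  have h2 : ∫⁻ x in Set.Icc (1 / 2 : ℝ) t, ‖deriv γ x‖ₑ ≤ Lg := by
    have hsub' : Set.Icc (1 / 2 : ℝ) t ⊆ Set.Ioo 0 1 := fun x hx =>
      ⟨by linarith [hx.1], lt_of_le_of_lt hx.2 ht2⟩
    refine (MeasureTheory.lintegral_mono_set hsub').trans ?_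
    refine MeasureTheory.lintegral_mono fun x => ?_
    rw [← ofReal_norm]
    refine ENNReal.ofReal_le_ofReal ?_
    have := Real.one_le_exp (h0 (γ x))
    nlinarith [norm_nonneg (deriv γ x)]
  have h3 := h1.trans h2
  rw [← ofReal_norm] at h3
  exact (ENNReal.ofReal_le_iff_le_toReal hne).mp h3

end Pool.Agent.SadSym
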